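import Pool.Agent.W979.TE.Defs2
import Pool.Agent.W715.BC.Fin1

set_option autoImplicit false

open Classical

namespace Pool.Agent.W979.TE

open Pool.Agent.W715.BC

/-- core theorem for trees whose centre has no root neighbour -/
theorem core2 (hst1 : S_ST1) (hblk : S_BLK) : ∀ (s q t K : ℕ), 1 ≤ q → q + 1 ≤ s → 0 < t → 0 < K →
    ∃ C : ℝ, ∀ (A B : Type) [Fintype A] [Fintype B] [Nonempty A] (r : A → B → Prop) (D : ℕ),
    Reg r D K → C ≤ (D : ℝ) →
    C * ((Fintype.card A + Fintype.card B : ℕ) : ℝ) ^ (s * q - 1) ≤ (D : ℝ) ^ (s * q + s) →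
    Blow r s q 0 t := by
  intro s q t K hq hsq ht hK
  obtain ⟨κ, ε, hκ, hε, hM⟩ := hst1 s q t K (by omega) hq ht hK
  obtain ⟨Cb, hCb⟩ := hblk s q t K κ (by omega) hq hκ
  obtain ⟨C1, hC1⟩ := hM (max Cb 1)
  refine ⟨max (max C1 1) (max Cb (Cb / ε ^ (s * q - 1))), ?_⟩
  intro A B _ _ _ r D hr hD hN
  set C : ℝ := max (max C1 1) (max Cb (Cb / ε ^ (s * q - 1))) with hC
  have hCC1 : C1 ≤ C := (le_max_left _ _).trans (le_max_left _ _)
  have hC1' : (1 : ℝ) ≤ C := (le_max_right _ _).trans (le_max_left _ _)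
  have hCCb : Cb ≤ C := (le_max_left _ _).trans (le_max_right _ _)
  have hCe : Cb / ε ^ (s * q - 1) ≤ C := (le_max_right _ _).trans (le_max_right _ _)
  have hD1 : (1 : ℝ) ≤ D := hC1'.trans hD
  have hpos : (0 : ℝ) ≤ ((Fintype.card A + Fintype.card B : ℕ) : ℝ) ^ (s * q - 1) := by positivity
  rcases hC1 A B r D hr (hCC1.trans hD) ((mul_le_mul_of_nonneg_right hCC1 hpos).trans hN) with h | h
  · exact h
  · obtain ⟨X, Y, μ, hX, hMμ, hYμ, hedge, hεμ⟩ := h
    refine hCb A B r X Y D μ ?_ hYμ hedge hX ((le_max_left _ _).trans hMμ) (hCCb.trans hD) ?_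
    · intro c _
      refine le_trans (Finset.card_le_card ?_) (hr.ua c)
      intro y hy
      simp only [Finset.mem_filter, Finset.mem_univ, true_and] at hy ⊢
      exact hy.2
    · set m := s * q - 1 with hm
      set n : ℝ := (Fintype.card A : ℝ) with hn
      have hn1 : (1 : ℝ) ≤ n := by
        rw [hn]; exact_mod_cast Fintype.card_pos
      have hx : (0 : ℝ) ≤ (X.card : ℝ) := Nat.cast_nonneg _
      have hμ0 : (0 : ℝ) ≤ (μ : ℝ) := Nat.cast_nonneg _
      -- D^(q (s q + s)) >= C n^(q m)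
      have h1 : C * n ^ (q * m) ≤ (D : ℝ) ^ (q * (s * q + s)) := by
        have h2 : (C * ((Fintype.card A + Fintype.card B : ℕ) : ℝ) ^ m) ^ q ≤
            ((D : ℝ) ^ (s * q + s)) ^ q := pow_le_pow_left₀ (by positivity) hN q
        have h3 : C * n ^ (q * m) ≤ (C * ((Fintype.card A + Fintype.card B : ℕ) : ℝ) ^ m) ^ q := by
          rw [mul_pow, ← pow_mul, mul_comm m q]
          apply mul_le_mul
          · exact le_self_pow₀ hC1' (by omega)
          · apply pow_le_pow_left₀ (by positivity)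
            rw [hn]; push_cast
            have : (0 : ℝ) ≤ (Fintype.card B : ℝ) := Nat.cast_nonneg _
            linarith
          · positivity
          · positivity
        refine h3.trans (h2.trans (le_of_eq ?_))
        rw [← pow_mul, mul_comm]
      have h4 : (D : ℝ) ^ (q * (s * q + s)) ≤ (D : ℝ) ^ (s + (q + 1) * m) := by
        apply pow_le_pow_right₀ hD1
        have h5 : 1 ≤ s * q := Nat.one_le_iff_ne_zero.mpr (by
          have : 0 < s := by omega
          positivity)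
        have h6 : m + 1 = s * q := by omega
        have h7 : (q + 1) * m + (q + 1) = (q + 1) * (s * q) := by rw [← h6]; ring
        have h8 : (q + 1) * (s * q) = q * (s * q) + s * q := by ring
        have h9 : q * (s * q + s) = q * (s * q) + s * q := by ring
        omega
      have h10 : Cb * n ^ (q * m) ≤ (D : ℝ) ^ (s + (q + 1) * m) * ε ^ m := by
        have h11 : Cb ≤ C * ε ^ m := by
          rw [div_le_iff₀ (by positivity)] at hCe
          exact hCe
        calc Cb * n ^ (q * m) ≤ (C * ε ^ m) * n ^ (q * m) :=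
              mul_le_mul_of_nonneg_right h11 (by positivity)
          _ = (C * n ^ (q * m)) * ε ^ m := by ring
          _ ≤ (D : ℝ) ^ (s + (q + 1) * m) * ε ^ m :=
              mul_le_mul_of_nonneg_right (h1.trans h4) (by positivity)
      have h12 : (ε * (D : ℝ) ^ (q + 1) * (X.card : ℝ)) ^ m ≤ ((μ : ℝ) * n ^ q) ^ m :=
        pow_le_pow_left₀ (by positivity) hεμ m
      have hnq : (0 : ℝ) < n ^ (q * m) := by positivity
      apply le_of_mul_le_mul_right _ hnq
      calc Cb * (X.card : ℝ) ^ m * n ^ (q * m) = (Cb * n ^ (q * m)) * (X.card : ℝ) ^ m := by ring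
        _ ≤ ((D : ℝ) ^ (s + (q + 1) * m) * ε ^ m) * (X.card : ℝ) ^ m :=
            mul_le_mul_of_nonneg_right h10 (by positivity)
        _ = (D : ℝ) ^ s * (ε * (D : ℝ) ^ (q + 1) * (X.card : ℝ)) ^ m := by
            rw [mul_pow, mul_pow, ← pow_mul, pow_add]; ring
        _ ≤ (D : ℝ) ^ s * ((μ : ℝ) * n ^ q) ^ m :=
            mul_le_mul_of_nonneg_left h12 (by positivity)
        _ = (D : ℝ) ^ s * (μ : ℝ) ^ m * n ^ (q * m) := by
            rw [mul_pow, ← pow_mul]; ring

/-- upper bound for trees whose centre has no root neighbour -/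
theorem main_numbers0 (hst1 : S_ST1) (hblk : S_BLK) (s q t : ℕ) (hq : 1 ≤ q) (hs : q + 1 ≤ s)
    (ht : 0 < t) (ρ : ℝ) (hρ : ρ * (s + 1) = s * (q + 1)) :
    ∃ C : ℝ, ∀ n : ℕ, ∀ G : SimpleGraph (Fin n), ¬ GBlow G s q 0 t →
      (G.edgeSet.ncard : ℝ) ≤ C * (n : ℝ) ^ (2 - 1 / ρ) := by
  have hsR : (q : ℝ) + 1 ≤ s := by exact_mod_cast hs
  have hqR : (1 : ℝ) ≤ q := by exact_mod_cast hq
  have hρ1' : 1 < ρ := by
    by_contra hcon
    have h1 : ρ * (s + 1) ≤ 1 * (s + 1) := mul_le_mul_of_nonneg_right (not_lt.mp hcon) (by positivity)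
    rw [hρ] at h1
    nlinarith
  have hρ0 : 0 < ρ := by linarith
  set ε : ℝ := 1 - 1 / ρ with hε
  have hε0 : 0 < ε := by
    rw [hε, sub_pos, div_lt_one hρ0]; exact hρ1'
  have hε1 : ε < 1 := by
    rw [hε]; have : 0 < 1 / ρ := by positivity
    linarith
  obtain ⟨K, hK, hreg⟩ := Pool.Agent.W247.BC.reg_holds ε hε0 hε1
  obtain ⟨C0, hcore⟩ := core2 hst1 hblk s q t K hq hs ht hK
  obtain ⟨C', hC'⟩ := hreg (max C0 1)
  refine ⟨C', fun n G hno => ?_⟩
  by_contra hcon
  push Not at hcon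
  rw [show (2 - 1 / ρ) = 1 + ε by rw [hε]; ring] at hcon
  obtain ⟨U, W, D, hUW, hU, hW, hD, hdU, hdW⟩ := hC' n G hcon
  apply hno
  apply gblow_of_blow G U W hUW
  have hN : (1 : ℝ) ≤ ((U.card + W.card : ℕ) : ℝ) := by
    have := hU.card_pos
    exact_mod_cast (by omega : 1 ≤ U.card + W.card)
  have hC1 : (1 : ℝ) ≤ max C0 1 := le_max_right _ _
  have hC0 : C0 ≤ max C0 1 := le_max_left _ _
  have hgen : ∀ m k : ℕ, 1 ≤ m → (k : ℝ) ≤ ε * m →
      C0 * ((U.card + W.card : ℕ) : ℝ) ^ k ≤ (D : ℝ) ^ m := by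
    intro m k hm hk
    refine le_trans ?_ (pow_ineq (max C0 1) _ D ε hC1 hN hD m k hm hk)
    exact mul_le_mul_of_nonneg_right hC0 (by positivity)
  have hUne : Nonempty U := by
    obtain ⟨u, hu⟩ := hU
    exact ⟨⟨u, hu⟩⟩
  have hcU : Fintype.card U = U.card := Fintype.card_coe U
  have hcW : Fintype.card W = W.card := Fintype.card_coe W
  have hfilt1 : ∀ u : U, deg1 (fun (u : U) (w : W) => G.Adj u.1 w.1) u =
      (W.filter (fun w => G.Adj u.1 w)).card := by
    intro u
    unfold deg1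
    rw [← Finset.card_map (Function.Embedding.subtype _)]
    congr 1
    ext v
    simp only [Finset.mem_map, Finset.mem_filter, Finset.mem_univ, true_and,
      Function.Embedding.coe_subtype]
    constructor
    · rintro ⟨a, ha, rfl⟩
      exact ⟨a.2, ha⟩
    · rintro ⟨h1, h2⟩
      exact ⟨⟨v, h1⟩, h2, rfl⟩
  have hfilt2 : ∀ w : W, deg2 (fun (u : U) (w : W) => G.Adj u.1 w.1) w =
      (U.filter (fun u => G.Adj u w.1)).card := by
    intro w
    unfold deg2
    rw [← Finset.card_map (Function.Embedding.subtype _)]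
    congr 1
    ext v
    simp only [Finset.mem_map, Finset.mem_filter, Finset.mem_univ, true_and,
      Function.Embedding.coe_subtype]
    constructor
    · rintro ⟨a, ha, rfl⟩
      exact ⟨a.2, ha⟩
    · rintro ⟨h1, h2⟩
      exact ⟨⟨v, h1⟩, h2, rfl⟩
  apply hcore U W (fun (u : U) (w : W) => G.Adj u.1 w.1) D
  · refine ⟨?_, ?_, ?_, ?_⟩
    · intro u; rw [hfilt1]; exact (hdU u.1 u.2).1
    · intro u; rw [hfilt1]; exact (hdU u.1 u.2).2
    · intro w; rw [hfilt2]; exact (hdW w.1 w.2).1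
    · intro w; rw [hfilt2]; exact (hdW w.1 w.2).2
  · have := hgen 1 0 le_rfl (by simp; exact hε0.le)
    simpa using this
  · rw [hcU, hcW]
    have hs1 : 1 ≤ s := by omega
    apply hgen _ _ (by omega)
    have h5 : 1 ≤ s * q := Nat.one_le_iff_ne_zero.mpr (by positivity)
    rw [hε, Nat.cast_sub (by omega)]
    push_cast
    have h4 : 1 / ρ * ((s : ℝ) * q + s) = s + 1 := by
      rw [one_div, inv_mul_eq_iff_eq_mul₀ hρ0.ne', hρ]; ring
    nlinarith

/-- upper bound for all star-type trees of non-integral density -/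
theorem main_numbers_all (hst1 : S_ST1) (hblk : S_BLK) (s q s' t : ℕ) (hs : 1 ≤ s) (hq : 1 ≤ q)
    (hs' : s' ≤ q) (he : q + 1 ≤ s + s') (ht : 0 < t) (ρ : ℝ)
    (hρ : ρ * (s + 1) = s * (q + 1) + s') :
    ∃ C : ℝ, ∀ n : ℕ, ∀ G : SimpleGraph (Fin n), ¬ GBlow G s q s' t →
      (G.edgeSet.ncard : ℝ) ≤ C * (n : ℝ) ^ (2 - 1 / ρ) := by
  rcases Nat.eq_zero_or_pos s' with h0 | h0
  · subst h0
    exact main_numbers0 hst1 hblk s q t hq (by omega) ht ρ (by simpa using hρ)
  · apply main_numbers s q s' t hs hq hs' ht _ ρ hρ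
    obtain ⟨e, he'⟩ : ∃ e, s + s' = q + 1 + e := ⟨s + s' - (q + 1), by omega⟩
    have h7 : s * q + s' * q = (q + 1 + e) * q := by rw [← he']; ring
    nlinarith

end Pool.Agent.W979.TE
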