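import Pool.Agent.W979.TE.Final
import Pool.Agent.W979.TE.Up
import Pool.Agent.W38.TE_Blk
import Pool.Agent.W74.TE.ST1

set_option autoImplicit false

open Classical Asymptotics Filter

namespace Pool.Agent.W979.TE

theorem emb : Pool.Agent.W715.BC.S_EMB := Pool.Agent.W902.BCEmb.emb Pool.Agent.W715.BC.K150.kst

theorem st1 : S_ST1 :=
  Pool.Agent.W74.TE.st1 (Pool.Agent.W370.BC.BC_HVY emb) Pool.Agent.W704.BC.cntMain

theorem blk : S_BLK := Pool.Agent.W38.TE.blk_lemma emb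

/-- upper bound for all star-type trees of non-integral density -/
theorem upper (s q s' t : ℕ) (hs : 1 ≤ s) (hq : 1 ≤ q)
    (hs' : s' ≤ q) (he : q + 1 ≤ s + s') (ht : 0 < t) (ρ : ℝ)
    (hρ : ρ * (s + 1) = s * (q + 1) + s') :
    ∃ C : ℝ, ∀ n : ℕ, ∀ G : SimpleGraph (Fin n), ¬ Pool.Agent.W715.BC.GBlow G s q s' t →
      (G.edgeSet.ncard : ℝ) ≤ C * (n : ℝ) ^ (2 - 1 / ρ) :=
  main_numbers_all st1 blk s q s' t hs hq hs' he ht ρ hρ

/-- new Turan exponents -/
theorem exponents (a b : ℕ) (ha0 : 0 < a) (hab : a < b) (hdvd : ¬ a ∣ b)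
    (h : (a - 1) * (b / a + 1) ≤ b) :
    ∃ k : ℕ, ∃ H : SimpleGraph (Fin k), H.Colorable 2 ∧
      (fun n : ℕ => (SimpleGraph.extremalNumber n H : ℝ)) =Θ[atTop]
        (fun n : ℕ => (n : ℝ) ^ (2 - (a : ℝ) / (b : ℝ))) := by
  have ha : 2 ≤ a := by
    by_contra hcon
    have h1 : a = 1 := by omega
    subst h1
    exact hdvd (one_dvd b)
  obtain ⟨s, rfl⟩ : ∃ s, a = s + 1 := ⟨a - 1, by omega⟩
  have hs : 1 ≤ s := by omega
  set q := b / (s + 1) with hq
  have hmod : 1 ≤ b % (s + 1) := by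
    rw [Nat.dvd_iff_mod_eq_zero] at hdvd
    omega
  have hmod2 : b % (s + 1) < s + 1 := Nat.mod_lt _ (by omega)
  have hdiv : (s + 1) * q + b % (s + 1) = b := Nat.div_add_mod b (s + 1)
  have hq1 : 1 ≤ q := by
    rw [hq]
    exact (Nat.one_le_div_iff (by omega)).2 hab.le
  rw [Nat.add_sub_cancel] at h
  obtain ⟨s', hs'⟩ : ∃ s', b = s * (q + 1) + s' := ⟨b - s * (q + 1), by omega⟩
  have e1 : (s + 1) * q = s * q + q := by ring
  have e2 : s * (q + 1) = s * q + s := by ring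
  have h1 : s' ≤ q := by omega
  have h2 : q + 1 ≤ s + s' := by omega
  have hb0 : (0 : ℝ) < (b : ℝ) := by
    have : 0 < b := by omega
    exact_mod_cast this
  have hρ : ((b : ℝ) / ((s : ℝ) + 1)) * (s + 1) = s * (q + 1) + s' := by
    rw [div_mul_cancel₀ _ (by positivity)]
    rw [hs']
    push_cast
    ring
  have h3 := turan_theta s q s' hs hq1 h1 (by omega) ((b : ℝ) / ((s : ℝ) + 1)) hρ
    (fun t ht => upper s q s' t hs hq1 h1 h2 ht _ hρ)
  rw [one_div, inv_div] at h3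
  push_cast
  exact h3

end Pool.Agent.W979.TE
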