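import Mathlib

set_option autoImplicit false

open Classical

namespace Pool.Agent.W979.TE

/-- the maximal ideal of the point x -/
noncomputable def pt {F ι : Type} [Field F] (x : ι → F) : Ideal (MvPolynomial ι F) :=
  Ideal.span (Set.range (fun i => MvPolynomial.X i - MvPolynomial.C (x i)))

/-- certificate of order N: the point x is an isolated zero of the ideal of the polynomials G j -/
def Cert {F ι κ : Type} [Field F] (N : ℕ) (G : κ → MvPolynomial ι F) (x : ι → F) : Prop :=
  pt x ^ N ≤ Ideal.span (Set.range G) ⊔ pt x ^ (N + 1)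

/-- uniform finiteness: a coordinate projection of a zero set over an algebraically closed field,
if finite, has a bounded number of elements (bound uniform in the field and in the parameters) -/
def S_UF : Prop := ∀ (σ τ : Type) [Fintype σ] [Fintype τ]
    (S : Finset (MvPolynomial (σ ⊕ τ) ℤ)) (i : τ), ∃ C : ℕ,
    ∀ (K : Type) [Field K] [IsAlgClosed K] (θ : σ → K),
    {y : K | ∃ v : τ → K, v i = y ∧
      ∀ P ∈ S, MvPolynomial.aeval (Sum.elim θ v) P = 0}.Finite →
    {y : K | ∃ v : τ → K, v i = y ∧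
      ∀ P ∈ S, MvPolynomial.aeval (Sum.elim θ v) P = 0}.ncard ≤ C

/-- certified zeros are finite in number -/
def S_FIN : Prop := ∀ (F ι κ : Type) [Field F] [Fintype ι] [Fintype κ] (N : ℕ)
    (G : κ → MvPolynomial ι F),
    {x : ι → F | (∀ j, MvPolynomial.eval x (G j) = 0) ∧ Cert N G x}.Finite

/-- the number of certified zeros is bounded uniformly in the field and the coefficients -/
def S_BND : Prop := ∀ (ι κ : Type) [Fintype ι] [Fintype κ] (d N : ℕ), ∃ C : ℕ,
    ∀ (F : Type) [Field F] (G : κ → MvPolynomial ι F),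
    (∀ j i, MvPolynomial.degreeOf i (G j) ≤ d) →
    {x : ι → F | (∀ j, MvPolynomial.eval x (G j) = 0) ∧ Cert N G x}.ncard ≤ C

/-- few perturbations of a monic polynomial value are divisible by a high power of X -/
def S_RES : Prop := ∀ (F : Type) [Field F] [Fintype F] (κ L : ℕ)
    (P : Polynomial (Polynomial F)), P.Monic → P.natDegree = κ →
    (Finset.univ.filter (fun lam : Fin (κ * L) → F =>
      (Polynomial.X : Polynomial F) ^ (κ * L + 1) ∣
        P.eval (∑ a, Polynomial.C (lam a) * Polynomial.X ^ (a.1 + 1)))).card *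
      Fintype.card F ^ L ≤ κ * Fintype.card F ^ (κ * L)

/-- the polynomial lam_0 X_i + lam_1 X_i^2 + ... -/
noncomputable def lamP {F ι : Type} [Field F] {M : ℕ} (i : ι) (lam : Fin M → F) :
    MvPolynomial ι F :=
  ∑ a, MvPolynomial.C (lam a) * MvPolynomial.X i ^ (a.1 + 1)

/-- elimination step -/
def S_EL : Prop := ∀ (F ι : Type) [Field F] [Fintype F] [Fintype ι]
    (J : Ideal (MvPolynomial ι F)) (i : ι) (N L K : ℕ) (G : MvPolynomial ι F), 1 ≤ N →
    N * (N ^ Fintype.card ι * L + 1) ≤ K →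
    MvPolynomial.idealOfVars ι F ^ N ≤
      J ⊔ Ideal.span {MvPolynomial.X i} ⊔ MvPolynomial.idealOfVars ι F ^ (K + 1) →
    (Finset.univ.filter (fun lam : Fin (N ^ Fintype.card ι * L) → F =>
      ¬ MvPolynomial.idealOfVars ι F ^ (N * (N ^ Fintype.card ι * L + 1)) ≤
        J ⊔ Ideal.span {G + lamP i lam} ⊔ MvPolynomial.idealOfVars ι F ^ (K + 1))).card *
      Fintype.card F ^ L ≤ N ^ Fintype.card ι * Fintype.card F ^ (N ^ Fintype.card ι * L)

/-- the orders of the successive certificates -/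
def NN (n L : ℕ) : ℕ → ℕ
  | 0 => 1
  | j + 1 => NN n L j * ((NN n L j) ^ n * L + 1)

/-- sequential elimination: few elements of a finite family, closed under perturbations, fail to
have a certificate at the origin -/
def S_SEQ : Prop := ∀ (F ι Ω : Type) [Field F] [Fintype F] [Fintype ι] [Fintype Ω] (L K : ℕ)
    (G : Ω → ι → MvPolynomial ι F) (pert : ι → (Fin K → F) → (Ω ≃ Ω)),
    K = NN (Fintype.card ι) L (Fintype.card ι) →
    (∀ i lam ω j, G (pert i lam ω) j - G ω j - (if j = i then lamP i lam else 0) ∈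
      MvPolynomial.idealOfVars ι F ^ (K + 1)) →
    (Finset.univ.filter (fun ω : Ω => ¬ MvPolynomial.idealOfVars ι F ^ K ≤
      Ideal.span (Set.range (G ω)) ⊔ MvPolynomial.idealOfVars ι F ^ (K + 1))).card *
      Fintype.card F ^ L ≤
      Fintype.card ι * K ^ Fintype.card ι * Fintype.card Ω

/-- bump polynomials -/
def S_BUMP : Prop := ∀ (F κ : Type) [Field F] [Fintype κ] (K k : ℕ) (Z : Finset (κ → F))
    (z : κ → F), z ∈ Z → Z.card ≤ k →
    ∃ E : MvPolynomial κ F, (∀ c, MvPolynomial.degreeOf c E ≤ k * (K + 1) ^ 2) ∧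
      E - 1 ∈ pt z ^ (K + 1) ∧ ∀ z' ∈ Z, z' ≠ z → E ∈ pt z' ^ (K + 1)

/-- balancedness of a rooted graph with non-roots U and edges E with ends a, b -/
def Bal {V E : Type} [Fintype E] (U : Finset V) (a b : E → V) : Prop :=
  ∀ S ⊆ U, Fintype.card E * S.card ≤
    U.card * (Finset.univ.filter (fun ε : E => a ε ∈ S ∨ b ε ∈ S)).card

/-- a matching of the variables (v, i) into the equations (ε, l), compatible with incidence -/
def Mat {V E : Type} [Fintype E] (U : Finset V) (a b : E → V)
    (μ : {v // v ∈ U} × Fin (Fintype.card E) → E × Fin U.card) : Prop :=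
  Function.Injective μ ∧ ∀ p, a (μ p).1 = p.1.1 ∨ b (μ p).1 = p.1.1

/-- Hall's theorem for balanced rooted graphs -/
def S_HALL : Prop := ∀ (V E : Type) [Fintype V] [Fintype E] (U : Finset V) (a b : E → V),
    Bal U a b → ∃ μ : {v // v ∈ U} × Fin (Fintype.card E) → E × Fin U.card, Mat U a b μ

/-- position of the vertex v: variables for a non-root, constants for a root -/
noncomputable def pos {F V : Type} [Field F] (U : Finset V) {e : ℕ} (z : V → Fin e → F)
    (v : V) (i : Fin e) : MvPolynomial ({v // v ∈ U} × Fin e) F :=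
  if h : v ∈ U then MvPolynomial.X (⟨v, h⟩, i) else MvPolynomial.C (z v i)

/-- substitution of the positions of the ends of the edge ε -/
noncomputable def sub {F V E : Type} [Field F] (U : Finset V) (a b : E → V) {e : ℕ}
    (z : V → Fin e → F) (ε : E) :
    MvPolynomial (Fin e ⊕ Fin e) F →ₐ[F] MvPolynomial ({v // v ∈ U} × Fin e) F :=
  MvPolynomial.aeval (Sum.elim (pos U z (a ε)) (pos U z (b ε)))

/-- m-tuples of polynomials in 2e variables of individual degrees at most d -/
abbrev Om (F : Type) [Field F] (m e d : ℕ) : Type :=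
  Fin m → MvPolynomial.restrictDegree (Fin e ⊕ Fin e) F d

/-- local statement: for a fixed position z of all the vertices few f have no certificate at z -/
def S_LOC : Prop := ∀ (F V E : Type) [Field F] [Fintype F] [Fintype V] [Fintype E]
    (U : Finset V) (a b : E → V) (L K d : ℕ)
    (μ : {v // v ∈ U} × Fin (Fintype.card E) → E × Fin U.card)
    (z : V → Fin (Fintype.card E) → F),
    Mat U a b μ → Function.Injective (fun ε : E => (z (a ε), z (b ε))) →
    K = NN (U.card * Fintype.card E) L (U.card * Fintype.card E) →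
    Fintype.card E * (K + 1) ^ 2 + K ≤ d →
    Nat.card {f : Om F U.card (Fintype.card E) d //
        ¬ Cert K (fun p : {v // v ∈ U} × Fin (Fintype.card E) =>
            sub U a b z (μ p).1 (f (μ p).2 : MvPolynomial (Fin (Fintype.card E) ⊕
              Fin (Fintype.card E)) F)) (fun p => z p.1.1 p.2)} * Fintype.card F ^ L ≤
      U.card * Fintype.card E * K ^ (U.card * Fintype.card E) *
        Nat.card (Om F U.card (Fintype.card E) d)

/-- pairs of points joined by f -/
abbrev Ed {F : Type} [Field F] {m e d : ℕ} (f : Om F m e d) : Type :=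
  {p : (Fin e → F) × (Fin e → F) //
    ∀ l, MvPolynomial.eval (Sum.elim p.1 p.2) (f l : MvPolynomial (Fin e ⊕ Fin e) F) = 0}

/-- existence of a good tuple of polynomials -/
def S_GOOD : Prop := ∀ (V E : Type) [Fintype V] [Fintype E] (U : Finset V), U.Nonempty →
    0 < Fintype.card E → ∃ d K q0 : ℕ, ∀ (F : Type) [Field F] [Fintype F],
    q0 ≤ Fintype.card F → ∃ f : Om F U.card (Fintype.card E) d,
      Fintype.card F ^ (2 * Fintype.card E) ≤
        2 * Fintype.card F ^ U.card * Nat.card (Ed f) ∧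
      ∀ a b : E → V, Bal U a b →
        ∃ μ : {v // v ∈ U} × Fin (Fintype.card E) → E × Fin U.card, Mat U a b μ ∧
        ∀ z : V → Fin (Fintype.card E) → F,
          Function.Injective (fun ε : E => (z (a ε), z (b ε))) →
          Cert K (fun p : {v // v ∈ U} × Fin (Fintype.card E) =>
            sub U a b z (μ p).1 (f (μ p).2 : MvPolynomial (Fin (Fintype.card E) ⊕
              Fin (Fintype.card E)) F)) (fun p => z p.1.1 p.2)

/-- number of edges of T meeting S -/
noncomputable def eS {V : Type} (T : SimpleGraph V) (S : Set V) : ℕ :=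
  ({e | e ∈ T.edgeSet ∧ ∃ v ∈ S, v ∈ e} : Set (Sym2 V)).ncard

/-- vertices of the t-blowup of T over R -/
abbrev BV (V : Type) (R : Set V) (t : ℕ) : Type := {p : V × ℕ // p.2 < t ∧ (p.1 ∈ R → p.2 = 0)}

/-- the t-blowup of T over R -/
def BU {V : Type} (T : SimpleGraph V) (R : Set V) (t : ℕ) : SimpleGraph (BV V R t) :=
  SimpleGraph.fromRel (fun a b : BV V R t =>
    T.Adj a.1.1 b.1.1 ∧ (a.1.2 = b.1.2 ∨ a.1.1 ∈ R ∨ b.1.1 ∈ R))

/-- G contains the t-blowup of T over R -/
def HasBU {V W : Type} (T : SimpleGraph V) (R : Set V) (t : ℕ) (G : SimpleGraph W) : Prop :=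
  ∃ f : BV V R t → W, Function.Injective f ∧ ∀ a b, (BU T R t).Adj a b → G.Adj (f a) (f b)

/-- Bukh-Conlon lower bound over a finite field -/
def S_LBq : Prop := ∀ (V : Type) [Fintype V] (T : SimpleGraph V) (R : Set V) (m e : ℕ),
    m = Rᶜ.ncard → e = eS T Rᶜ → 0 < m → 0 < e →
    (∀ S : Set V, S ⊆ Rᶜ → e * S.ncard ≤ m * eS T S) →
    ∃ t q0 : ℕ, 0 < t ∧ ∀ (F : Type) [Field F] [Fintype F], q0 ≤ Fintype.card F →
      ∃ G : SimpleGraph (Bool × (Fin e → F)),
        Fintype.card F ^ (2 * e) ≤ 2 * Fintype.card F ^ m * G.edgeSet.ncard ∧ ¬ HasBU T R t G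

/-- Bukh-Conlon lower bound -/
def S_LB : Prop := ∀ (V : Type) [Fintype V] (T : SimpleGraph V) (R : Set V) (m e : ℕ),
    m = Rᶜ.ncard → e = eS T Rᶜ → 0 < m → m ≤ e →
    (∀ S : Set V, S ⊆ Rᶜ → e * S.ncard ≤ m * eS T S) →
    ∃ t : ℕ, 0 < t ∧ ∃ c : ℝ, 0 < c ∧ ∃ n0 : ℕ, ∀ n : ℕ, n0 ≤ n →
      ∃ G : SimpleGraph (Fin n), ¬ HasBU T R t G ∧
        c * (n : ℝ) ^ (2 - (m : ℝ) / (e : ℝ)) ≤ (G.edgeSet.ncard : ℝ)

end Pool.Agent.W979.TE
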