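import Pool.Agent.W715.BC.Defs
import Pool.Agent.W979.TE.Defs

set_option autoImplicit false

open Classical

namespace Pool.Agent.W979.TE3

open Pool.Agent.W715.BC

/-- common neighbours -/
noncomputable def cn {A B : Type} [Fintype B] (r : A → B → Prop) (x x' : A) : Finset B :=
  Finset.univ.filter (fun y => r x y ∧ r x' y)

/-- distinct, with at least one and fewer than L common neighbours -/
def Lk {A B : Type} [Fintype B] (r : A → B → Prop) (L : ℕ) (x x' : A) : Prop :=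
  x ≠ x' ∧ (cn r x x').Nonempty ∧ (cn r x x').card < L

/-- entries pairwise distinct, with fewer than L common neighbours -/
def Nice {A B : Type} [Fintype B] (r : A → B → Prop) (L : ℕ) {k : ℕ} (Q : Fin k → A) : Prop :=
  ∀ i j, i ≠ j → Q i ≠ Q j ∧ (cn r (Q i) (Q j)).card < L

/-- the vertices linked to all entries of the tuple Q -/
noncomputable def Ft {A B : Type} [Fintype A] [Fintype B] (r : A → B → Prop) (L : ℕ) {k : ℕ}
    (Q : Fin k → A) : Finset A :=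
  Finset.univ.filter (fun u => ∀ i, Lk r L u (Q i))

/-- the subdivided star with centre u, connectors y and leaves Q -/
def Star {A B : Type} [Fintype B] (r : A → B → Prop) (L : ℕ) {k : ℕ} (u : A) (Q : Fin k → A)
    (y : Fin k → B) : Prop :=
  (∀ i, r u (y i) ∧ r (Q i) (y i)) ∧ Function.Injective y ∧ ∀ i, Lk r L u (Q i)

/-- M subdivided stars with leaves Q, distinct centres and distinct connectors -/
def Rich {A B : Type} [Fintype B] (r : A → B → Prop) (L M : ℕ) {k : ℕ} (Q : Fin k → A) : Prop :=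
  ∃ (u : Fin M → A) (y : Fin M → Fin k → B), Function.Injective u ∧
    Function.Injective (fun p : Fin M × Fin k => y p.1 p.2) ∧ ∀ j, Star r L (u j) Q (y j)

/-- the t-blowup of the 1-subdivision of the star-type tree: centres u j x (x = none: the centre c,
x = some i: its children a_i), roots ρ x l, connectors β j i between c and a_i, connectors γ j x l
between u j x and ρ x l -/
def SBlow {A B : Type} (r : A → B → Prop) (s q t : ℕ) : Prop :=
  ∃ (u : Fin t → Option (Fin s) → A) (ρ : Option (Fin s) → Fin q → A) (β : Fin t → Fin s → B)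
    (γ : Fin t → Option (Fin s) → Fin q → B),
    (∀ j i, r (u j none) (β j i)) ∧ (∀ j i, r (u j (some i)) (β j i)) ∧
    (∀ j x l, r (u j x) (γ j x l)) ∧ (∀ j x l, r (ρ x l) (γ j x l)) ∧
    Function.Injective (fun p : Fin t × Option (Fin s) => u p.1 p.2) ∧
    Function.Injective (fun p : Option (Fin s) × Fin q => ρ p.1 p.2) ∧
    (∀ j x x' l, u j x ≠ ρ x' l) ∧
    Function.Injective (fun p : Fin t × (Fin s ⊕ Option (Fin s) × Fin q) =>
      Sum.elim (β p.1) (fun z => γ p.1 z.1 z.2) p.2)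

/-- number of edges of the tree before subdivision -/
def hh (s q : ℕ) : ℕ := s + (s + 1) * q

/-- threshold for heavy pairs -/
def LT (s q t : ℕ) : ℕ := hh s q * t + 1

/-- threshold for rich tuples -/
def MT (s q t : ℕ) : ℕ := t * (s + 1) + (s + 1) * q + hh s q * t + 1

/-- many heavy pairs in a set give a blowup -/
def S_E0 : Prop := ∀ (s q t : ℕ) (β : ℝ), 0 < β → ∃ N0 : ℕ, ∀ (A B : Type) [Fintype A] [Fintype B]
    (r : A → B → Prop) (F : Finset A), N0 ≤ F.card →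
    β * (F.card : ℝ) ^ 2 ≤ (((F ×ˢ F).filter (fun p : A × A =>
      p.1 = p.2 ∨ LT s q t ≤ (cn r p.1 p.2).card)).card : ℝ) →
    SBlow r s q t

/-- few non-nice tuples -/
def S_NB : Prop := ∀ (s q t k : ℕ) (β : ℝ), 0 < β → ∃ N0 : ℕ, ∀ (A B : Type) [Fintype A]
    [Fintype B] (r : A → B → Prop) (X : Finset A), ¬ SBlow r s q t → N0 ≤ X.card →
    ((Finset.univ.filter (fun Q : Fin k → A => (∀ i, Q i ∈ X) ∧ ¬ Nice r (LT s q t) Q)).card : ℝ) ≤
      β * (X.card : ℝ) ^ k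

/-- the second moment bound with constant M0 -/
def E1P (s q t M0 : ℕ) : Prop := ∀ (A B : Type) [Fintype A] [Fintype B]
    (r : A → B → Prop) (X : Finset A), ¬ SBlow r s q t →
    ∑ y ∈ Finset.univ.filter (fun y : B => M0 ≤ (X.filter (fun x => r x y)).card),
      (X.filter (fun x => r x y)).card ^ 2 ≤ 2 * LT s q t * X.card ^ 2

/-- second moment bound -/
def S_E1 : Prop := ∀ (s q t : ℕ), ∃ M0 : ℕ, 0 < M0 ∧ E1P s q t M0

/-- a nice tuple is rich, or a connector is popular -/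
def S_DICH : Prop := ∀ (A B : Type) [Fintype A] [Fintype B] (r : A → B → Prop) (L M k : ℕ)
    (Q : Fin k → A), 0 < k → Nice r L Q → ¬ Rich r L M Q → (Ft r L Q).Nonempty →
    ∃ (y : B) (i : Fin k), r (Q i) y ∧
      (Ft r L Q).card ≤ (M * k + k ^ 2 * L) * ((Ft r L Q).filter (fun u => r u y)).card

/-- double counting -/
def S_DC : Prop := ∀ (A B : Type) [Fintype A] [Fintype B] (r : A → B → Prop) (L k m : ℕ)
    (F : Finset (Fin k → A)),
    ∑ Q ∈ F, (Ft r L Q).card ^ m =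
      ∑ w : Fin m → A, (F.filter (fun Q => ∀ i, Q i ∈ Ft r L w)).card

/-- tuples inside a neighbourhood -/
def S_TB : Prop := ∀ (A B : Type) [Fintype A] [Fintype B] (r : A → B → Prop) (L k m K D : ℕ)
    (lam : ℝ), 2 ≤ k → 0 < lam → Reg r D K → 0 < D →
    ((∑ w ∈ Finset.univ.filter (fun w : Fin k → A => Nice r L w),
      ∑ y ∈ Finset.univ.filter (fun y : B => ∀ i, r (w i) y),
        ((Ft r L w).filter (fun u => r u y)).card * (Ft r L w).card ^ m : ℕ) : ℝ) ≤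
      (L : ℝ) * K / lam * ((∑ w : Fin k → A, (Ft r L w).card ^ (m + 1) : ℕ) : ℝ) +
        (Fintype.card B : ℝ) * ((K : ℝ) * D) ^ (k + 1) * (lam * D) ^ m

/-- total weight of the rich tuples of size at least M1 -/
noncomputable def RW {A B : Type} [Fintype A] [Fintype B] (r : A → B → Prop) (L M1 M2 q : ℕ) : ℕ :=
  ∑ Q ∈ Finset.univ.filter (fun Q : Fin (q + 1) → A => Nice r L Q ∧ M1 ≤ (Ft r L Q).card ∧
    Rich r L M2 Q), (Ft r L Q).card ^ q

/-- total weight of all tuples -/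
noncomputable def AW {A B : Type} [Fintype A] [Fintype B] (r : A → B → Prop) (L q : ℕ) : ℕ :=
  ∑ Q : Fin (q + 1) → A, (Ft r L Q).card ^ q

/-- number of pairs (nice tuple with at least M1 linked vertices, linked vertex) -/
noncomputable def HW {A B : Type} [Fintype A] [Fintype B] (r : A → B → Prop) (L M1 q : ℕ) : ℕ :=
  ∑ Q ∈ Finset.univ.filter (fun Q : Fin (q + 1) → A => Nice r L Q ∧ M1 ≤ (Ft r L Q).card),
    (Ft r L Q).card

/-- rich tuples carry a constant proportion of the weight -/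
def S_W1 : Prop := ∀ (s q t K M2 : ℕ) (η : ℝ), 2 ≤ q → 0 < K → 0 < η → ∃ Λ : ℝ, 0 < Λ ∧
    ∀ Ms : ℕ, ∃ M1 : ℕ, Ms ≤ M1 ∧ ∃ C : ℝ, ∀ (A B : Type) [Fintype A] [Fintype B] [Nonempty A]
    (r : A → B → Prop) (D : ℕ), Reg r D K → C ≤ (D : ℝ) →
    C * (Fintype.card A : ℝ) ^ (q - 1) ≤ (D : ℝ) ^ (2 * q + 2) → ¬ SBlow r s q t →
    η * (Fintype.card A : ℝ) * (D : ℝ) ^ (2 * q + 2) ≤ (HW r (LT s q t) M1 q : ℝ) →
    η * (Fintype.card A : ℝ) * (D : ℝ) ^ (2 * q + 2) ≤ (AW r (LT s q t) q : ℝ) ∧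
    (AW r (LT s q t) q : ℝ) ≤ Λ * (RW r (LT s q t) M1 M2 q : ℝ)

/-- a good tuple w -/
def GoodW {A B : Type} [Fintype A] [Fintype B] (r : A → B → Prop) (L M2 N2 q : ℕ) (β δ : ℝ)
    (w : Fin q → A) : Prop :=
  Nice r L w ∧ N2 ≤ (Ft r L w).card ∧
  (∀ l y, r (w l) y → (((Ft r L w).filter (fun u => r u y)).card : ℝ) ≤
    δ * ((Ft r L w).card : ℝ)) ∧
  β * ((Ft r L w).card : ℝ) ^ (q + 1) ≤ ((Finset.univ.filter (fun Q : Fin (q + 1) → A =>
    (∀ i, Q i ∈ Ft r L w) ∧ Rich r L M2 Q)).card : ℝ)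

/-- averaging over w -/
def S_W2 : Prop := ∀ (s q t K M2 : ℕ) (η Λ : ℝ), 2 ≤ q → 0 < K → 0 < η → 0 < Λ →
    ∃ Ms : ℕ, ∀ M1 : ℕ, Ms ≤ M1 → ∀ (δ : ℝ) (N2 : ℕ), 0 < δ → ∃ C : ℝ,
    ∀ (A B : Type) [Fintype A] [Fintype B] [Nonempty A] (r : A → B → Prop) (D : ℕ), Reg r D K →
    C ≤ (D : ℝ) → C * (Fintype.card A : ℝ) ^ (q - 1) ≤ (D : ℝ) ^ (2 * q + 2) → ¬ SBlow r s q t →
    η * (Fintype.card A : ℝ) * (D : ℝ) ^ (2 * q + 2) ≤ (AW r (LT s q t) q : ℝ) →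
    (AW r (LT s q t) q : ℝ) ≤ Λ * (RW r (LT s q t) M1 M2 q : ℝ) →
    ∃ w : Fin q → A, GoodW r (LT s q t) M2 N2 q (1 / (2 * Λ)) δ w

/-- embedding -/
def S_EMB3 : Prop := ∀ (s q t : ℕ) (β : ℝ), 0 < t → 0 < β → ∃ (δ : ℝ) (N2 : ℕ), 0 < δ ∧
    ∀ (A B : Type) [Fintype A] [Fintype B] (r : A → B → Prop) (w : Fin q → A),
    GoodW r (LT s q t) (MT s q t) N2 q β δ w → SBlow r s q t

/-- few heavy stars -/
def S_E2 : Prop := ∀ (s q t K : ℕ) (η : ℝ), 2 ≤ q → 0 < t → 0 < K → 0 < η → ∃ (M1 : ℕ) (C : ℝ),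
    ∀ (A B : Type) [Fintype A] [Fintype B] [Nonempty A] (r : A → B → Prop) (D : ℕ), Reg r D K →
    C ≤ (D : ℝ) → C * (Fintype.card A : ℝ) ^ (q - 1) ≤ (D : ℝ) ^ (2 * q + 2) → ¬ SBlow r s q t →
    (HW r (LT s q t) M1 q : ℝ) ≤ η * (Fintype.card A : ℝ) * (D : ℝ) ^ (2 * q + 2)

/-- homs of the subdivided star with q+1 leaves -/
noncomputable def StH {A B : Type} [Fintype A] [Fintype B] (r : A → B → Prop) (q : ℕ)
    (E : A → (Fin (q + 1) → B) → (Fin (q + 1) → A) → Prop) : ℕ :=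
  (Finset.univ.filter (fun z : A × (Fin (q + 1) → B) × (Fin (q + 1) → A) =>
    (∀ k, r z.1 (z.2.1 k) ∧ r (z.2.2 k) (z.2.1 k)) ∧ E z.1 z.2.1 z.2.2)).card

/-- few bad stars -/
def S_ST : Prop := ∀ (s q t K : ℕ) (ε : ℝ), 2 ≤ q → 0 < t → 0 < K → 0 < ε → ∃ (M1 : ℕ) (C : ℝ),
    ∀ (A B : Type) [Fintype A] [Fintype B] [Nonempty A] (r : A → B → Prop) (D : ℕ), Reg r D K →
    C ≤ (D : ℝ) → C * (Fintype.card A : ℝ) ^ (q - 1) ≤ (D : ℝ) ^ (2 * q + 2) → ¬ SBlow r s q t →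
    (StH r q (fun v _ Q => ¬ ((∀ k, Lk r (LT s q t) v (Q k)) ∧ (Ft r (LT s q t) Q).card < M1)) : ℝ) ≤
      ε * (Fintype.card A : ℝ) * (D : ℝ) ^ (2 * q + 2)

/-- labelled embeddings: centres, roots, connectors between centres, connectors to roots -/
abbrev Cop (A B : Type) (s q : ℕ) : Type :=
  (Option (Fin s) → A) × (Option (Fin s) → Fin q → A) × (Fin s → B) × (Option (Fin s) → Fin q → B)

/-- homs of the subdivided tree -/
def Hm {A B : Type} {s q : ℕ} (r : A → B → Prop) (z : Cop A B s q) : Prop :=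
  (∀ i, r (z.1 none) (z.2.2.1 i)) ∧ (∀ i, r (z.1 (some i)) (z.2.2.1 i)) ∧
  (∀ x l, r (z.1 x) (z.2.2.2 x l)) ∧ (∀ x l, r (z.2.1 x l) (z.2.2.2 x l))

/-- all vertices distinct -/
def Inj {A B : Type} {s q : ℕ} (z : Cop A B s q) : Prop :=
  Function.Injective z.1 ∧ Function.Injective (fun p : Option (Fin s) × Fin q => z.2.1 p.1 p.2) ∧
  (∀ x x' l, z.1 x ≠ z.2.1 x' l) ∧
  Function.Injective (Sum.elim z.2.2.1 (fun p : Option (Fin s) × Fin q => z.2.2.2 p.1 p.2))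

/-- clean copies -/
def CC {A B : Type} [Fintype A] [Fintype B] {s q : ℕ} (r : A → B → Prop) (L M1 : ℕ)
    (z : Cop A B s q) : Prop :=
  Hm r z ∧ Inj z ∧ (∀ i, Lk r L (z.1 none) (z.1 (some i))) ∧ (∀ x l, Lk r L (z.1 x) (z.2.1 x l)) ∧
  (∀ i, (Ft r L (Fin.cons (z.1 none) (z.2.1 (some i)) : Fin (q + 1) → A)).card < M1) ∧
  (∀ i, (Ft r L (Fin.cons (z.1 (some i)) (z.2.1 none) : Fin (q + 1) → A)).card < M1)

/-- number of homs -/
def S_HC : Prop := ∀ (s q K : ℕ) (A B : Type) [Fintype A] [Fintype B] (r : A → B → Prop) (D : ℕ),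
    Reg r D K →
    Fintype.card A * D ^ (2 * hh s q) ≤
      (Finset.univ.filter (fun z : Cop A B s q => Hm r z)).card ∧
    (Finset.univ.filter (fun z : Cop A B s q => Hm r z)).card ≤
      Fintype.card A * (K * D) ^ (2 * hh s q)

/-- few degenerate homs -/
def S_CO : Prop := ∀ (s q K : ℕ), 0 < K → ∃ C : ℝ, ∀ (A B : Type) [Fintype A] [Fintype B]
    (r : A → B → Prop) (D : ℕ), Reg r D K →
    ((Finset.univ.filter (fun z : Cop A B s q => Hm r z ∧ ¬ Inj z)).card : ℝ) * D ≤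
      C * (Fintype.card A : ℝ) * (D : ℝ) ^ (2 * hh s q)

/-- extension of stars to homs of the tree -/
def S_MST : Prop := ∀ (s q K : ℕ) (A B : Type) [Fintype A] [Fintype B] (r : A → B → Prop) (D : ℕ)
    (E : A → (Fin (q + 1) → B) → (Fin (q + 1) → A) → Prop) (i : Fin s), Reg r D K →
    (Finset.univ.filter (fun z : Cop A B s q => Hm r z ∧
      E (z.1 (some i)) (Fin.cons (z.2.2.1 i) (z.2.2.2 (some i)))
        (Fin.cons (z.1 none) (z.2.1 (some i))))).card ≤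
        (K * D) ^ (2 * hh s q - 2 * (q + 1)) * StH r q E ∧
    (Finset.univ.filter (fun z : Cop A B s q => Hm r z ∧
      E (z.1 none) (Fin.cons (z.2.2.1 i) (z.2.2.2 none))
        (Fin.cons (z.1 (some i)) (z.2.1 none)))).card ≤
        (K * D) ^ (2 * hh s q - 2 * (q + 1)) * StH r q E

/-- many clean copies -/
def S_E3 : Prop := ∀ (s q t K : ℕ), 1 ≤ s → 2 ≤ q → 0 < t → 0 < K → ∃ (M1 : ℕ) (C : ℝ),
    ∀ (A B : Type) [Fintype A] [Fintype B] [Nonempty A] (r : A → B → Prop) (D : ℕ), Reg r D K →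
    C ≤ (D : ℝ) → C * (Fintype.card A : ℝ) ^ (q - 1) ≤ (D : ℝ) ^ (2 * q + 2) → ¬ SBlow r s q t →
    (1 / 2 : ℝ) * (Fintype.card A : ℝ) * (D : ℝ) ^ (2 * hh s q) ≤
      ((Finset.univ.filter (fun z : Cop A B s q => CC r (LT s q t) M1 z)).card : ℝ)

/-- few clean copies with given roots and one given centre -/
def S_KAP : Prop := ∀ (s q L M1 : ℕ) (A B : Type) [Fintype A] [Fintype B] (r : A → B → Prop)
    (ρ : Option (Fin s) → Fin q → A) (x : Option (Fin s)) (a : A),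
    (Finset.univ.filter (fun z : Cop A B s q => CC r L M1 z ∧ z.2.1 = ρ ∧ z.1 x = a)).card ≤
      M1 ^ s * L ^ hh s q

/-- popular connectors next to roots -/
def S_G : Prop := ∀ (s q t K M1 : ℕ) (ε : ℝ), 1 ≤ s → 1 ≤ q → 0 < t → 0 < K → 0 < ε → ∃ C : ℝ,
    ∀ (A B : Type) [Fintype A] [Fintype B] [Nonempty A] (r : A → B → Prop) (D : ℕ)
    (x : Option (Fin s)) (l : Fin q) (yf : (Option (Fin s) → Fin q → A) → B), Reg r D K →
    C ≤ (D : ℝ) → C * (Fintype.card A : ℝ) ≤ (D : ℝ) ^ 3 → ¬ SBlow r s q t →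
    ((Finset.univ.filter (fun z : Cop A B s q => CC r (LT s q t) M1 z ∧
      z.2.2.2 x l = yf z.2.1)).card : ℝ) ≤
      ε * (Fintype.card A : ℝ) * (D : ℝ) ^ (2 * hh s q) +
        C * (Fintype.card A : ℝ) ^ ((s + 1) * q)

/-- possible positions of the centre c when the roots outside a_i are given -/
noncomputable def Xc {A B : Type} [Fintype A] [Fintype B] {s q : ℕ} (r : A → B → Prop) (L M1 : ℕ)
    (i : Fin s) (ρ : Option (Fin s) → Fin q → A) : Finset A :=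
  Finset.univ.filter (fun a => ∃ z : Cop A B s q, CC r L M1 z ∧ z.1 none = a ∧
    ∀ x, x ≠ some i → z.2.1 x = ρ x)

/-- possible positions of a_i when the roots of a_i are given -/
noncomputable def Xa {A B : Type} [Fintype A] [Fintype B] {s q : ℕ} (r : A → B → Prop) (L M1 : ℕ)
    (i : Fin s) (ρ : Option (Fin s) → Fin q → A) : Finset A :=
  Finset.univ.filter (fun a => ∃ z : Cop A B s q, CC r L M1 z ∧ z.1 (some i) = a ∧
    z.2.1 (some i) = ρ (some i))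

/-- number of neighbours of y in X -/
noncomputable def mm {A B : Type} (r : A → B → Prop) (X : Finset A) (y : B) : ℕ :=
  (X.filter (fun x => r x y)).card

/-- copies with a connector of large degree into Xc -/
def S_BC : Prop := ∀ (s q t K M1 M0 : ℕ), 1 ≤ s → 1 ≤ q → 0 < K → E1P s q t M0 → ∃ c1 : ℝ,
    ∀ ν : ℝ, 0 < ν → ∀ (A B : Type) [Fintype A] [Fintype B] [Nonempty A] (r : A → B → Prop) (D : ℕ)
    (i : Fin s), Reg r D K → 0 < D → ¬ SBlow r s q t →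
    ((Finset.univ.filter (fun z : Cop A B s q => CC r (LT s q t) M1 z ∧
      (M0 : ℝ) + ν / D * ((Xc r (LT s q t) M1 i z.2.1).card : ℝ) <
        (mm r (Xc r (LT s q t) M1 i z.2.1) (z.2.2.1 i) : ℝ))).card : ℝ) ≤
      c1 / ν * (Fintype.card A : ℝ) * (D : ℝ) ^ (2 * hh s q)

/-- copies with a connector of large degree into Xa -/
def S_BA : Prop := ∀ (s q t K M1 M0 : ℕ), 1 ≤ s → 1 ≤ q → 0 < K → E1P s q t M0 → ∃ c1 : ℝ,
    ∀ ν : ℝ, 0 < ν → ∀ (A B : Type) [Fintype A] [Fintype B] [Nonempty A] (r : A → B → Prop) (D : ℕ)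
    (i : Fin s), Reg r D K → 0 < D → ¬ SBlow r s q t →
    ((Finset.univ.filter (fun z : Cop A B s q => CC r (LT s q t) M1 z ∧
      (M0 : ℝ) + ν / D * ((Xa r (LT s q t) M1 i z.2.1).card : ℝ) <
        (mm r (Xa r (LT s q t) M1 i z.2.1) (z.2.2.1 i) : ℝ))).card : ℝ) ≤
      c1 / ν * (Fintype.card A : ℝ) * (D : ℝ) ^ (2 * hh s q)

/-- copies whose connector has small degree into Xc and Xa -/
def S_BS : Prop := ∀ (s q t K M1 M0 : ℕ), 1 ≤ s → 1 ≤ q → 0 < K → ∃ c1 : ℝ,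
    ∀ ν : ℝ, 0 < ν → ∀ (A B : Type) [Fintype A] [Fintype B] [Nonempty A] (r : A → B → Prop) (D : ℕ)
    (i : Fin s) (yf : (Option (Fin s) → Fin q → A) → B), Reg r D K → 0 < D →
    ((Finset.univ.filter (fun z : Cop A B s q => CC r (LT s q t) M1 z ∧ z.2.2.1 i = yf z.2.1 ∧
      (mm r (Xc r (LT s q t) M1 i z.2.1) (z.2.2.1 i) : ℝ) ≤
        (M0 : ℝ) + ν / D * ((Xc r (LT s q t) M1 i z.2.1).card : ℝ) ∧
      (mm r (Xa r (LT s q t) M1 i z.2.1) (z.2.2.1 i) : ℝ) ≤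
        (M0 : ℝ) + ν / D * ((Xa r (LT s q t) M1 i z.2.1).card : ℝ))).card : ℝ) * (D : ℝ) ^ 4 ≤
      c1 * (1 + ν) * (Fintype.card A : ℝ) ^ ((s + 1) * q) * (D : ℝ) ^ 4 +
      c1 * ν * (Fintype.card A : ℝ) ^ 2 * (D : ℝ) ^ (2 * hh s q)

/-- popular connectors between centres -/
def S_B : Prop := ∀ (s q t K M1 : ℕ) (ε : ℝ), 1 ≤ s → 1 ≤ q → 0 < t → 0 < K → 0 < ε → ∃ C : ℝ,
    ∀ (A B : Type) [Fintype A] [Fintype B] [Nonempty A] (r : A → B → Prop) (D : ℕ)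
    (i : Fin s) (yf : (Option (Fin s) → Fin q → A) → B), Reg r D K →
    C ≤ (D : ℝ) → C * (Fintype.card A : ℝ) ≤ (D : ℝ) ^ 3 → ¬ SBlow r s q t →
    ((Finset.univ.filter (fun z : Cop A B s q => CC r (LT s q t) M1 z ∧
      z.2.2.1 i = yf z.2.1)).card : ℝ) ≤
      ε * (Fintype.card A : ℝ) * (D : ℝ) ^ (2 * hh s q) +
        C * (Fintype.card A : ℝ) ^ ((s + 1) * q)

/-- popular centres -/
def S_U : Prop := ∀ (s q L M1 : ℕ) (A B : Type) [Fintype A] [Fintype B] (r : A → B → Prop)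
    (x : Option (Fin s)) (uf : (Option (Fin s) → Fin q → A) → A),
    (Finset.univ.filter (fun z : Cop A B s q => CC r L M1 z ∧ z.1 x = uf z.2.1)).card ≤
      M1 ^ s * L ^ hh s q * Fintype.card A ^ ((s + 1) * q)

/-- the core theorem -/
def S_CORE3 : Prop := ∀ (s q t K : ℕ), 1 ≤ s → 2 ≤ q → 0 < t → 0 < K → ∃ C : ℝ,
    ∀ (A B : Type) [Fintype A] [Fintype B] [Nonempty A] (r : A → B → Prop) (D : ℕ), Reg r D K →
    C ≤ (D : ℝ) → C * (Fintype.card A : ℝ) ≤ (D : ℝ) ^ 3 →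
    C * (Fintype.card A : ℝ) ^ (q - 1) ≤ (D : ℝ) ^ (2 * q + 2) →
    C * (Fintype.card A : ℝ) ^ ((s + 1) * q - 1) ≤ (D : ℝ) ^ (2 * hh s q) → SBlow r s q t

/-- the blowup inside a graph, all vertices distinct -/
def GSB {W : Type} (G : SimpleGraph W) (s q t : ℕ) : Prop :=
  ∃ (u : Fin t → Option (Fin s) → W) (ρ : Option (Fin s) → Fin q → W) (β : Fin t → Fin s → W)
    (γ : Fin t → Option (Fin s) → Fin q → W),
    (∀ j i, G.Adj (u j none) (β j i)) ∧ (∀ j i, G.Adj (u j (some i)) (β j i)) ∧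
    (∀ j x l, G.Adj (u j x) (γ j x l)) ∧ (∀ j x l, G.Adj (ρ x l) (γ j x l)) ∧
    Function.Injective (fun p : Fin t × Option (Fin s) => u p.1 p.2) ∧
    Function.Injective (fun p : Option (Fin s) × Fin q => ρ p.1 p.2) ∧
    (∀ j x x' l, u j x ≠ ρ x' l) ∧
    Function.Injective (fun p : Fin t × (Fin s ⊕ Option (Fin s) × Fin q) =>
      Sum.elim (β p.1) (fun z => γ p.1 z.1 z.2) p.2) ∧
    (∀ j x j' i, u j x ≠ β j' i) ∧ (∀ j x j' x' l, u j x ≠ γ j' x' l) ∧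
    (∀ x l j i, ρ x l ≠ β j i) ∧ (∀ x l j x' l', ρ x l ≠ γ j x' l')

/-- upper bound in graphs -/
def S_UP3 : Prop := ∀ (s q t : ℕ), 1 ≤ s → 3 ≤ q → 0 < t → ∃ C : ℝ, ∀ n : ℕ,
    ∀ G : SimpleGraph (Fin n), ¬ GSB G s q t →
    (G.edgeSet.ncard : ℝ) ≤
      C * (n : ℝ) ^ (2 - ((s + 1 + hh s q : ℕ) : ℝ) / ((2 * hh s q : ℕ) : ℝ))

/-- the explicit tree -/
def S_TREE3 : Prop := ∀ (s q : ℕ), 1 ≤ s → 1 ≤ q →
    ∃ (V : Type) (_ : Fintype V) (T : SimpleGraph V) (R : Set V),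
      Rᶜ.ncard = s + 1 + hh s q ∧ Pool.Agent.W979.TE.eS T Rᶜ = 2 * hh s q ∧
      (∀ S : Set V, S ⊆ Rᶜ → (2 * hh s q) * S.ncard ≤
        (s + 1 + hh s q) * Pool.Agent.W979.TE.eS T S) ∧
      (∀ t : ℕ, (Pool.Agent.W979.TE.BU T R t).Colorable 2) ∧
      ∀ (t : ℕ) (W : Type) (G : SimpleGraph W), GSB G s q t → Pool.Agent.W979.TE.HasBU T R t G

end Pool.Agent.W979.TE3
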