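import Pool.Agent.W979.TE.Final
import Pool.Agent.W979.TE.Defs3

set_option autoImplicit false

open Classical Asymptotics Filter

namespace Pool.Agent.W979.TE3

open Pool.Agent.W979.TE

theorem turan_theta3 (htree : S_TREE3) (hup : S_UP3) (s q : ℕ) (hs : 1 ≤ s) (hq : 3 ≤ q) :
    ∃ k : ℕ, ∃ H : SimpleGraph (Fin k), H.Colorable 2 ∧
      (fun n : ℕ => (SimpleGraph.extremalNumber n H : ℝ)) =Θ[atTop]
        (fun n : ℕ => (n : ℝ) ^ (2 - ((s + 1 + hh s q : ℕ) : ℝ) / ((2 * hh s q : ℕ) : ℝ))) := by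
  obtain ⟨V, _, T, R, hm, he, hbal, hcol, hBU⟩ := htree s q hs (by omega)
  have hh1 : s + 1 ≤ hh s q := by
    unfold hh
    have : s + 1 ≤ (s + 1) * q := Nat.le_mul_of_pos_right _ (by omega)
    omega
  obtain ⟨t, ht, c, hc, n0, hlow⟩ := lower V T R (s + 1 + hh s q) (2 * hh s q) hm.symm he.symm
    (by omega) (by omega) hbal
  obtain ⟨C, hC⟩ := hup s q t hs hq ht
  have hfin : Finite (BV V R t) := by
    apply Finite.of_injective (fun p : BV V R t => ((p.1.1, (⟨p.1.2, p.2.1⟩ : Fin t)) : V × Fin t))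
    intro a b hab
    simp only [Prod.mk.injEq, Fin.mk.injEq] at hab
    exact Subtype.ext (Prod.ext hab.1 hab.2)
  have := Fintype.ofFinite (BV V R t)
  set θ : ℝ := 2 - ((s + 1 + hh s q : ℕ) : ℝ) / ((2 * hh s q : ℕ) : ℝ) with hθ
  let e := Fintype.equivFin (BV V R t)
  let H := (BU T R t).map e.toEmbedding
  have iso : BU T R t ≃g H := SimpleGraph.Iso.map e (BU T R t)
  refine ⟨_, H, ?_, ?_⟩
  · exact (hcol t).of_hom iso.symm.toHom
  · have hex : ∀ n, SimpleGraph.extremalNumber n H = SimpleGraph.extremalNumber n (BU T R t) :=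
      fun n => SimpleGraph.extremalNumber_congr_right iso.symm
    simp only [hex]
    constructor
    · apply IsBigO.of_bound (max C 0)
      filter_upwards with n
      rw [Real.norm_of_nonneg (Nat.cast_nonneg _), Real.norm_of_nonneg (by positivity)]
      have h0 : (0 : ℝ) ≤ max C 0 * (n : ℝ) ^ θ := by positivity
      have := (SimpleGraph.extremalNumber_le_iff_of_nonneg (V := Fin n) (BU T R t) h0).2 (by
        intro G _ hfree
        have h1 : ¬ GSB G s q t := by
          intro hG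
          apply hfree
          rw [← hasBU_iff]
          exact hBU t (Fin n) G hG
        have h2 := hC n G h1
        rw [ncard_edgeSet] at h2
        exact h2.trans (mul_le_mul_of_nonneg_right (le_max_left _ _) (by positivity)))
      rwa [Fintype.card_fin] at this
    · apply IsBigO.of_bound (1 / c)
      filter_upwards [eventually_ge_atTop n0] with n hn
      rw [Real.norm_of_nonneg (Nat.cast_nonneg _), Real.norm_of_nonneg (by positivity)]
      obtain ⟨G, hG, hcard⟩ := hlow n hn
      rw [hasBU_iff] at hG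
      have h1 : G.edgeFinset.card ≤ SimpleGraph.extremalNumber n (BU T R t) := by
        have := SimpleGraph.card_edgeFinset_le_extremalNumber (G := G) (H := BU T R t) hG
        rwa [Fintype.card_fin] at this
      rw [ncard_edgeSet] at hcard
      have h2 : (G.edgeFinset.card : ℝ) ≤ (SimpleGraph.extremalNumber n (BU T R t) : ℝ) := by
        exact_mod_cast h1
      have h3 := hcard.trans h2
      calc (n : ℝ) ^ θ = 1 / c * (c * (n : ℝ) ^ θ) := by
            rw [← mul_assoc, one_div_mul_cancel hc.ne', one_mul]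
        _ ≤ _ := mul_le_mul_of_nonneg_left h3 (by positivity)

/-- new Turan exponents: 2 - a/b with a = g (q+2) - 1 and b = 2 (g (q+1) - 1), g >= 2, q >= 3 -/
theorem exponents3 (htree : S_TREE3) (hup : S_UP3) (g q : ℕ) (hg : 2 ≤ g) (hq : 3 ≤ q) :
    ∃ k : ℕ, ∃ H : SimpleGraph (Fin k), H.Colorable 2 ∧
      (fun n : ℕ => (SimpleGraph.extremalNumber n H : ℝ)) =Θ[atTop]
        (fun n : ℕ => (n : ℝ) ^ (2 - ((g : ℝ) * (q + 2) - 1) / (2 * ((g : ℝ) * (q + 1) - 1)))) := by
  obtain ⟨s, rfl⟩ : ∃ s, g = s + 1 := ⟨g - 1, by omega⟩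
  have h := turan_theta3 htree hup s q (by omega) hq
  have e1 : ((s + 1 + hh s q : ℕ) : ℝ) = ((s + 1 : ℕ) : ℝ) * (q + 2) - 1 := by
    unfold hh; push_cast; ring
  have e2 : ((2 * hh s q : ℕ) : ℝ) = 2 * (((s + 1 : ℕ) : ℝ) * (q + 1) - 1) := by
    unfold hh; push_cast; ring
  rw [e1, e2] at h
  exact h

end Pool.Agent.W979.TE3
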