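import Pool.Agent.W979.TE.E2
import Pool.Agent.W979.TE.Final3
import Pool.Agent.W797.TE3.E0
import Pool.Agent.W505.TE3_Nb
import Pool.Agent.W505.TE3_Dich
import Pool.Agent.W933.TE3_DcTb
import Pool.Agent.W803.TE3_W1
import Pool.Agent.W916.TE3_W2
import Pool.Agent.W239.TE3_Emb3
import Pool.Agent.W753.TE3_ST
import Pool.Agent.W374.TE3.Mst
import Pool.Agent.W616.TE3_Seq
import Pool.Agent.W195.TE3_E3
import Pool.Agent.W59.TE3_KAP
import Pool.Agent.W588.TE.G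
import Pool.Agent.W465.TE3.BC
import Pool.Agent.W227.TE3_BA
import Pool.Agent.W797.TE3.BS
import Pool.Agent.W59.TE3_B
import Pool.Agent.W655.TE3_Core
import Pool.Agent.W737.TE3_Up
import Pool.Agent.W179.TE3_Tree

set_option autoImplicit false

open Classical Asymptotics Filter

namespace Pool.Agent.W979.TE3

theorem m_e0 : S_E0 := Pool.Agent.W797.TE3.E0
theorem m_nb : S_NB := Pool.Agent.W505.TE3.nb m_e0
theorem m_e1 : S_E1 := Pool.Agent.W505.TE3.e1 m_e0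
theorem m_dich : S_DICH := Pool.Agent.W505.TE3.dich
theorem m_dc : S_DC := Pool.Agent.W933.TE3DT.dc
theorem m_tb : S_TB := Pool.Agent.W933.TE3DT.tb
theorem m_w1 : S_W1 := Pool.Agent.W803.TE3.w1 m_dich m_nb m_dc m_tb
theorem m_w2 : S_W2 := Pool.Agent.W916.TE3W2.main m_nb m_dc m_tb
theorem m_emb3 : S_EMB3 := Pool.Agent.W239.TE3E.main
theorem m_e2 : S_E2 := e2 m_w1 m_w2 m_emb3
theorem m_st : S_ST := Pool.Agent.W753.TE3ST.main m_e0 m_nb m_e2
theorem m_mst : S_MST := Pool.Agent.W374.TE3.pMST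
theorem m_hc : S_HC := Pool.Agent.W616.TE3.t_HC
theorem m_co : S_CO := Pool.Agent.W616.TE3.t_CO
theorem m_e3 : S_E3 := Pool.Agent.W195.TE3E3.e3 m_hc m_co m_mst m_st
theorem m_kap : S_KAP := Pool.Agent.W59.TE3.t_KAP
theorem m_u : S_U := Pool.Agent.W59.TE3.t_U
theorem m_g : S_G := Pool.Agent.W588.TE.G.main m_e1 m_kap m_hc
theorem m_bc : S_BC := Pool.Agent.W465.TE3.BC.main m_kap m_hc
theorem m_ba : S_BA := Pool.Agent.W227.TE3.te3_ba m_kap
theorem m_bs : S_BS := Pool.Agent.W797.TE3.bs m_kap m_hc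
theorem m_b : S_B := Pool.Agent.W59.TE3.t_B m_e1 m_bc m_ba m_bs
theorem m_core : S_CORE3 := Pool.Agent.W655.TE3.core3 m_e3 m_u m_g m_b
theorem m_up : S_UP3 := Pool.Agent.W737.TE3.up3 m_core
theorem m_tree : S_TREE3 := Pool.Agent.W179.TE3Tree.tree3

end Pool.Agent.W979.TE3
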