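import Pool.Agent.W979.TE.Defs
import Pool.Agent.W715.BC.Defs

set_option autoImplicit false

open Classical

namespace Pool.Agent.W979.TE

/-- block lemma: a set X of centres and a set Y of connectors of large degree into X, spanning at
least κ D |X| edges, give a blowup of the tree with root-free centre -/
def S_BLK : Prop := ∀ (s q t K : ℕ) (κ : ℝ), 1 ≤ s → 1 ≤ q → 0 < κ → ∃ C : ℝ,
    ∀ (A B : Type) [Fintype A] [Fintype B] (r : A → B → Prop) (X : Finset A) (Y : Finset B)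
      (D μ : ℕ),
    (∀ c ∈ X, (Y.filter (fun y => r c y)).card ≤ K * D) →
    (∀ y ∈ Y, μ ≤ (X.filter (fun c => r c y)).card) →
    κ * (D : ℝ) * (X.card : ℝ) ≤ ((∑ y ∈ Y, (X.filter (fun c => r c y)).card : ℕ) : ℝ) →
    X.Nonempty → C ≤ (μ : ℝ) → C ≤ (D : ℝ) →
    C * (X.card : ℝ) ^ (s * q - 1) ≤ (D : ℝ) ^ s * (μ : ℝ) ^ (s * q - 1) →
    Pool.Agent.W715.BC.Blow r s q 0 t

/-- first stage: a blowup, or sets X and Y as in the block lemma -/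
def S_ST1 : Prop := ∀ (s q t K : ℕ), 1 ≤ s → 1 ≤ q → 0 < t → 0 < K →
    ∃ κ ε : ℝ, 0 < κ ∧ 0 < ε ∧ ∀ M : ℝ, ∃ C : ℝ,
    ∀ (A B : Type) [Fintype A] [Fintype B] [Nonempty A] (r : A → B → Prop) (D : ℕ),
    Pool.Agent.W715.BC.Reg r D K → C ≤ (D : ℝ) →
    C * ((Fintype.card A + Fintype.card B : ℕ) : ℝ) ^ (s * q - 1) ≤ (D : ℝ) ^ (s * q + s) →
    Pool.Agent.W715.BC.Blow r s q 0 t ∨
    ∃ (X : Finset A) (Y : Finset B) (μ : ℕ), X.Nonempty ∧ M ≤ (μ : ℝ) ∧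
      (∀ y ∈ Y, μ ≤ (X.filter (fun c => r c y)).card) ∧
      κ * (D : ℝ) * (X.card : ℝ) ≤ ((∑ y ∈ Y, (X.filter (fun c => r c y)).card : ℕ) : ℝ) ∧
      ε * (D : ℝ) ^ (q + 1) * (X.card : ℝ) ≤ (μ : ℝ) * (Fintype.card A : ℝ) ^ q

/-- explicit star-type trees: labelling, balancedness, bipartiteness of the blowup -/
def S_STAR : Prop := ∀ (s q s' : ℕ), 1 ≤ s → 1 ≤ q → s' ≤ q → q ≤ s + s' →
    ∃ (V : Type) (_ : Fintype V) (T : SimpleGraph V) (R : Set V),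
      Pool.Agent.W715.BC.Lab T R s q s' ∧ Rᶜ.ncard = s + 1 ∧ eS T Rᶜ = s * (q + 1) + s' ∧
      (∀ S : Set V, S ⊆ Rᶜ → (s * (q + 1) + s') * S.ncard ≤ (s + 1) * eS T S) ∧
      ∀ t : ℕ, (BU T R t).Colorable 2

end Pool.Agent.W979.TE
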