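import Pool.Agent.W979.TE.Defs

set_option autoImplicit false

open Classical

namespace Pool.Agent.W979.TE4

open Pool.Agent.W979.TE

/-- the rooted graph T with two new roots: the new root b is joined to all the non-roots of
colour different from b -/
def TS {V : Type} (T : SimpleGraph V) (R : Set V) (col : V → Bool) : SimpleGraph (V ⊕ Bool) :=
  SimpleGraph.fromRel (fun a b =>
    (∃ u v, a = Sum.inl u ∧ b = Sum.inl v ∧ T.Adj u v) ∨
    (∃ v c, a = Sum.inl v ∧ b = Sum.inr c ∧ v ∉ R ∧ col v ≠ c))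

/-- its roots -/
def RS {V : Type} (R : Set V) : Set (V ⊕ Bool) := Sum.inl '' R ∪ Set.range Sum.inr

/-- its colouring -/
def cS {V : Type} (col : V → Bool) : V ⊕ Bool → Bool := Sum.elim col id

/-- rooted graphs considered: connected, with roots, properly coloured, with non-roots of both
colours -/
structure Adm {V : Type} (T : SimpleGraph V) (R : Set V) (col : V → Bool) : Prop where
  conn : T.Connected
  ne : R.Nonempty
  prop : ∀ u v, T.Adj u v → col u ≠ col v
  both : ∀ b : Bool, ∃ v, v ∉ R ∧ col v = b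

/-- upper bound with density ρ -/
def UB {V : Type} (T : SimpleGraph V) (R : Set V) (ρ : ℝ) : Prop :=
  ∀ t : ℕ, 0 < t → ∃ C : ℝ, ∀ n : ℕ, ∀ G : SimpleGraph (Fin n), ¬ HasBU T R t G →
    (G.edgeSet.ncard : ℝ) ≤ C * (n : ℝ) ^ (2 - 1 / ρ)

/-- the new rooted graph is admissible, with the right parameters -/
def S_SH1 : Prop := ∀ (V : Type) [Fintype V] (T : SimpleGraph V) (R : Set V) (col : V → Bool)
    (m e : ℕ), Adm T R col → Rᶜ.ncard = m → eS T Rᶜ = e →
    (∀ S : Set V, S ⊆ Rᶜ → e * S.ncard ≤ m * eS T S) →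
    Adm (TS T R col) (RS R) (cS col) ∧ (RS R)ᶜ.ncard = m ∧ eS (TS T R col) (RS R)ᶜ = e + m ∧
    (∀ S : Set (V ⊕ Bool), S ⊆ (RS R)ᶜ → (e + m) * S.ncard ≤ m * eS (TS T R col) S)

/-- Erdos-Simonovits reduction with shared roots -/
def S_SH2 : Prop := ∀ (V : Type) [Fintype V] (T : SimpleGraph V) (R : Set V) (col : V → Bool)
    (ρ : ℝ), 1 < ρ → Adm T R col → UB T R ρ → UB (TS T R col) (RS R) (ρ + 1)

/-- colourings of blowups -/
def S_SH3 : Prop := ∀ (V : Type) (T : SimpleGraph V) (R : Set V) (col : V → Bool),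
    Adm T R col → ∀ t : ℕ, 0 < t → (BU T R t).Connected ∧
      ∀ a b : BV V R t, (BU T R t).Adj a b → col a.1.1 ≠ col b.1.1

end Pool.Agent.W979.TE4
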