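import Pool.Agent.W979.TE.Defs3
import Pool.Agent.W979.TE.Defs4

set_option autoImplicit false

open Classical

namespace Pool.Agent.W979.TE5

open Pool.Agent.W979.TE Pool.Agent.W979.TE3 Pool.Agent.W979.TE4

/-- the explicit tree, with colouring -/
def S_TREE4 : Prop := ∀ (s q : ℕ), 1 ≤ s → 1 ≤ q →
    ∃ (V : Type) (_ : Fintype V) (T : SimpleGraph V) (R : Set V) (col : V → Bool),
      T.IsTree ∧ Adm T R col ∧ Rᶜ.ncard = s + 1 + hh s q ∧ eS T Rᶜ = 2 * hh s q ∧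
      (∀ S : Set V, S ⊆ Rᶜ → (2 * hh s q) * S.ncard ≤ (s + 1 + hh s q) * eS T S) ∧
      ∀ (t : ℕ) (W : Type) (G : SimpleGraph W), GSB G s q t → HasBU T R t G

end Pool.Agent.W979.TE5
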