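import Pool.Agent.W979.TE.Defs3

set_option autoImplicit false

open Classical

namespace Pool.Agent.W979.TE3

open Pool.Agent.W715.BC

/-- few heavy stars -/
theorem e2 (h1 : S_W1) (h2 : S_W2) (h3 : S_EMB3) : S_E2 := by
  intro s q t K η hq ht hK hη
  obtain ⟨Λ, hΛ, hW1⟩ := h1 s q t K (MT s q t) η hq hK hη
  obtain ⟨Ms, hW2⟩ := h2 s q t K (MT s q t) η Λ hq hK hη hΛ
  obtain ⟨M1, hM1, C1, hC1⟩ := hW1 Ms
  obtain ⟨δ, N2, hδ, hemb⟩ := h3 s q t (1 / (2 * Λ)) ht (by positivity)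
  obtain ⟨C2, hC2⟩ := hW2 M1 hM1 δ N2 hδ
  refine ⟨M1, max C1 C2, ?_⟩
  intro A B _ _ _ r D hr hD hn hno
  by_contra hcon
  push Not at hcon
  have hp : (0 : ℝ) ≤ (Fintype.card A : ℝ) ^ (q - 1) := by positivity
  obtain ⟨h4, h5⟩ := hC1 A B r D hr ((le_max_left _ _).trans hD)
    ((mul_le_mul_of_nonneg_right (le_max_left _ _) hp).trans hn) hno hcon.le
  obtain ⟨w, hw⟩ := hC2 A B r D hr ((le_max_right _ _).trans hD)
    ((mul_le_mul_of_nonneg_right (le_max_right _ _) hp).trans hn) hno h4 h5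
  exact hno (hemb A B r w hw)

end Pool.Agent.W979.TE3
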