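import Pool.Agent.W979.TE.Lower
import Pool.Agent.W979.TE.Defs2
import Pool.Agent.W417.TE_Star
import Pool.Agent.W389.BC_TR3

set_option autoImplicit false

open Classical Asymptotics Filter

namespace Pool.Agent.W979.TE

/-- containing a blowup is containing a copy of the blowup graph -/
lemma hasBU_iff {V W : Type} (T : SimpleGraph V) (R : Set V) (t : ℕ) (G : SimpleGraph W) :
    HasBU T R t G ↔ (BU T R t).IsContained G := by
  constructor
  · rintro ⟨f, hf, hadj⟩
    exact ⟨⟨⟨f, fun {a b} h => hadj a b h⟩, hf⟩⟩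
  · rintro ⟨f⟩
    exact ⟨f, f.injective, fun a b h => f.toHom.map_rel h⟩

lemma ncard_edgeSet {n : ℕ} (G : SimpleGraph (Fin n)) [Fintype G.edgeSet] :
    G.edgeSet.ncard = G.edgeFinset.card := by
  rw [Set.ncard_eq_toFinset_card', SimpleGraph.edgeFinset]

theorem turan_theta (s q s' : ℕ) (hs : 1 ≤ s) (hq : 1 ≤ q) (hs' : s' ≤ q) (hge : q ≤ s + s')
    (ρ : ℝ) (hρ : ρ * (s + 1) = s * (q + 1) + s')
    (hup : ∀ t : ℕ, 0 < t → ∃ C : ℝ, ∀ n : ℕ, ∀ G : SimpleGraph (Fin n),
      ¬ Pool.Agent.W715.BC.GBlow G s q s' t → (G.edgeSet.ncard : ℝ) ≤ C * (n : ℝ) ^ (2 - 1 / ρ)) :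
    ∃ k : ℕ, ∃ H : SimpleGraph (Fin k), H.Colorable 2 ∧
      (fun n : ℕ => (SimpleGraph.extremalNumber n H : ℝ)) =Θ[atTop]
        (fun n : ℕ => (n : ℝ) ^ (2 - 1 / ρ)) := by
  obtain ⟨V, _, T, R, hLab, hm, he, hbal, hcol⟩ := Pool.Agent.W417.TEStar.star s q s' hs hq hs' hge
  have hme : s + 1 ≤ s * (q + 1) + s' := by nlinarith
  obtain ⟨t, ht, c, hc, n0, hlow⟩ := lower V T R (s + 1) (s * (q + 1) + s') hm.symm he.symm
    (by omega) hme hbal
  obtain ⟨C, hC⟩ := hup t ht
  have hfin : Finite (BV V R t) := by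
    apply Finite.of_injective (fun p : BV V R t => ((p.1.1, (⟨p.1.2, p.2.1⟩ : Fin t)) : V × Fin t))
    intro a b hab
    simp only [Prod.mk.injEq, Fin.mk.injEq] at hab
    exact Subtype.ext (Prod.ext hab.1 hab.2)
  have := Fintype.ofFinite (BV V R t)
  have hρe : ((s + 1 : ℕ) : ℝ) / ((s * (q + 1) + s' : ℕ) : ℝ) = 1 / ρ := by
    have h1 : (0 : ℝ) < (s : ℝ) + 1 := by positivity
    have h2 : (0 : ℝ) < (s : ℝ) * (q + 1) + s' := by
      have : (1 : ℝ) ≤ s := by exact_mod_cast hs
      positivity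
    have h3 : ρ ≠ 0 := by
      rintro rfl
      rw [zero_mul] at hρ
      exact h2.ne hρ
    push_cast
    rw [← hρ]
    field_simp
  rw [hρe] at hlow
  let e := Fintype.equivFin (BV V R t)
  let H := (BU T R t).map e.toEmbedding
  have iso : BU T R t ≃g H := SimpleGraph.Iso.map e (BU T R t)
  refine ⟨_, H, ?_, ?_⟩
  · exact (hcol t).of_hom iso.symm.toHom
  · have hex : ∀ n, SimpleGraph.extremalNumber n H = SimpleGraph.extremalNumber n (BU T R t) :=
      fun n => SimpleGraph.extremalNumber_congr_right iso.symm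
    simp only [hex]
    constructor
    · apply IsBigO.of_bound (max C 0)
      filter_upwards with n
      rw [Real.norm_of_nonneg (Nat.cast_nonneg _), Real.norm_of_nonneg (by positivity)]
      have h0 : (0 : ℝ) ≤ max C 0 * (n : ℝ) ^ (2 - 1 / ρ) := by positivity
      have := (SimpleGraph.extremalNumber_le_iff_of_nonneg (V := Fin n) (BU T R t) h0).2 (by
        intro G _ hfree
        have h1 : ¬ Pool.Agent.W715.BC.GBlow G s q s' t := by
          intro hG
          apply hfree
          rw [← hasBU_iff]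
          exact Pool.Agent.W389.BC.tr3 V T R s q s' hLab t n G hG
        have h2 := hC n G h1
        rw [ncard_edgeSet] at h2
        exact h2.trans (mul_le_mul_of_nonneg_right (le_max_left _ _) (by positivity)))
      rwa [Fintype.card_fin] at this
    · apply IsBigO.of_bound (1 / c)
      filter_upwards [eventually_ge_atTop n0] with n hn
      rw [Real.norm_of_nonneg (Nat.cast_nonneg _), Real.norm_of_nonneg (by positivity)]
      obtain ⟨G, hG, hcard⟩ := hlow n hn
      rw [hasBU_iff] at hG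
      have h1 : G.edgeFinset.card ≤ SimpleGraph.extremalNumber n (BU T R t) := by
        have := SimpleGraph.card_edgeFinset_le_extremalNumber (G := G) (H := BU T R t) hG
        rwa [Fintype.card_fin] at this
      rw [ncard_edgeSet] at hcard
      have h2 : (G.edgeFinset.card : ℝ) ≤ (SimpleGraph.extremalNumber n (BU T R t) : ℝ) := by
        exact_mod_cast h1
      have h3 := hcard.trans h2
      calc (n : ℝ) ^ (2 - 1 / ρ) = 1 / c * (c * (n : ℝ) ^ (2 - 1 / ρ)) := by
            rw [← mul_assoc, one_div_mul_cancel hc.ne', one_mul]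
        _ ≤ _ := mul_le_mul_of_nonneg_left h3 (by positivity)

end Pool.Agent.W979.TE
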