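import Pool.Agent.W493.TE_LB
import Pool.Agent.W493.TE_LBq
import Pool.Agent.W493.TE_Good
import Pool.Agent.W376.TE_Loc
import Pool.Agent.W290.TE_Hall
import Pool.Agent.W312.TE_Seq
import Pool.Agent.W932.TE_Bump
import Pool.Agent.W932.TE_Res
import Pool.Agent.W239.TE_Bnd
import Pool.Agent.W641.TE_Fin
import Pool.Agent.W975.TE.UF
import Pool.Agent.W154.TE.TE_EL

set_option autoImplicit false

namespace Pool.Agent.W979.TE

theorem bnd : S_BND := Pool.Agent.W239.TE.main Pool.Agent.W975.TE.uf Pool.Agent.W641.TE.t_FIN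

theorem loc : S_LOC :=
  Pool.Agent.W376.TE.loc (Pool.Agent.W312.TE.seq (Pool.Agent.W154.TE.main Pool.Agent.W932.TE.res))
    Pool.Agent.W932.TE.bump

/-- Bukh-Conlon lower bound over finite fields -/
theorem lbq : S_LBq :=
  Pool.Agent.W493.TE.lbq (Pool.Agent.W493.TE.good Pool.Agent.W290.TE.hall loc) bnd

/-- the Bukh-Conlon lower bound for balanced rooted graphs -/
theorem lower : S_LB := Pool.Agent.W493.TE.lb lbq

end Pool.Agent.W979.TE
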