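import Pool.Agent.W979.TE.Main3
import Pool.Agent.W979.TE.Defs5
import Pool.Agent.W125.TE4_SH1
import Pool.Agent.W239.TE4_SH2
import Pool.Agent.W653.TE4_SH3
import Pool.Agent.W376.TE4_Tree4

set_option autoImplicit false

open Classical Asymptotics Filter

namespace Pool.Agent.W979.TE5

open Pool.Agent.W979.TE Pool.Agent.W979.TE3 Pool.Agent.W979.TE4

/-- a rooted graph with m non-roots and e edges meeting them satisfying the hypotheses of the lower
bound and the upper bound -/
def Good (m e : ℕ) : Prop :=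
  ∃ (V : Type) (_ : Fintype V) (T : SimpleGraph V) (R : Set V) (col : V → Bool),
    Adm T R col ∧ Rᶜ.ncard = m ∧ eS T Rᶜ = e ∧
    (∀ S : Set V, S ⊆ Rᶜ → e * S.ncard ≤ m * eS T S) ∧ UB T R ((e : ℝ) / (m : ℝ))

theorem good_shift {m e : ℕ} (hm : 0 < m) (hme : m < e) (h : Good m e) : Good m (e + m) := by
  obtain ⟨V, _, T, R, col, hadm, hcard, he, hbal, hub⟩ := h
  obtain ⟨h1, h2, h3, h4⟩ := Pool.Agent.W125.TE4.sh1 V T R col m e hadm hcard he hbal
  have hm' : (0 : ℝ) < m := by exact_mod_cast hm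
  have hme' : (m : ℝ) < e := by exact_mod_cast hme
  refine ⟨V ⊕ Bool, inferInstance, TS T R col, RS R, cS col, h1, h2, h3, h4, ?_⟩
  have := Pool.Agent.W239.TE4S.main Pool.Agent.W653.TE4.sh3 V T R col ((e : ℝ) / m)
    (by rw [one_lt_div hm']; exact hme') hadm hub
  have e1 : ((e + m : ℕ) : ℝ) / (m : ℝ) = (e : ℝ) / m + 1 := by
    push_cast
    rw [add_div, div_self hm'.ne']
  rw [e1]
  exact this

theorem good_iter {m e : ℕ} (hm : 0 < m) (hme : m < e) (h : Good m e) (j : ℕ) :
    Good m (e + j * m) := by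
  induction j with
  | zero => simpa using h
  | succ j ih =>
    have h1 := good_shift (e := e + j * m) hm (by omega) ih
    have e1 : e + (j + 1) * m = e + j * m + m := by ring
    rw [e1]
    exact h1

/-- a good rooted graph gives a Turan exponent -/
theorem theta_of_good {m e : ℕ} (hm : 0 < m) (hme : m < e) (h : Good m e) :
    ∃ k : ℕ, ∃ H : SimpleGraph (Fin k), H.Colorable 2 ∧
      (fun n : ℕ => (SimpleGraph.extremalNumber n H : ℝ)) =Θ[atTop]
        (fun n : ℕ => (n : ℝ) ^ (2 - (m : ℝ) / (e : ℝ))) := by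
  obtain ⟨V, _, T, R, col, hadm, hcard, he, hbal, hub⟩ := h
  obtain ⟨t, ht, c, hc, n0, hlow⟩ := lower V T R m e hcard.symm he.symm hm hme.le hbal
  obtain ⟨C, hC⟩ := hub t ht
  have hcol : (BU T R t).Colorable 2 := by
    have h3 := (Pool.Agent.W653.TE4.sh3 V T R col hadm t ht).2
    refine ⟨SimpleGraph.Coloring.mk (fun v => if col v.1.1 then (0 : Fin 2) else 1) ?_⟩
    intro a b hab
    have := h3 a b hab
    cases ha : col a.1.1 <;> cases hb : col b.1.1 <;> simp_all
  rw [one_div_div] at hC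
  have hfin : Finite (BV V R t) := by
    apply Finite.of_injective (fun p : BV V R t => ((p.1.1, (⟨p.1.2, p.2.1⟩ : Fin t)) : V × Fin t))
    intro a b hab
    simp only [Prod.mk.injEq, Fin.mk.injEq] at hab
    exact Subtype.ext (Prod.ext hab.1 hab.2)
  have := Fintype.ofFinite (BV V R t)
  set θ : ℝ := 2 - (m : ℝ) / (e : ℝ) with hθ
  let eq := Fintype.equivFin (BV V R t)
  let H := (BU T R t).map eq.toEmbedding
  have iso : BU T R t ≃g H := SimpleGraph.Iso.map eq (BU T R t)
  refine ⟨_, H, ?_, ?_⟩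
  · exact hcol.of_hom iso.symm.toHom
  · have hex : ∀ n, SimpleGraph.extremalNumber n H = SimpleGraph.extremalNumber n (BU T R t) :=
      fun n => SimpleGraph.extremalNumber_congr_right iso.symm
    simp only [hex]
    constructor
    · apply IsBigO.of_bound (max C 0)
      filter_upwards with n
      rw [Real.norm_of_nonneg (Nat.cast_nonneg _), Real.norm_of_nonneg (by positivity)]
      have h0 : (0 : ℝ) ≤ max C 0 * (n : ℝ) ^ θ := by positivity
      have := (SimpleGraph.extremalNumber_le_iff_of_nonneg (V := Fin n) (BU T R t) h0).2 (by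
        intro G _ hfree
        have h1 : ¬ HasBU T R t G := by
          intro hG
          apply hfree
          rw [← hasBU_iff]
          exact hG
        have h2 := hC n G h1
        rw [ncard_edgeSet] at h2
        exact h2.trans (mul_le_mul_of_nonneg_right (le_max_left _ _) (by positivity)))
      rwa [Fintype.card_fin] at this
    · apply IsBigO.of_bound (1 / c)
      filter_upwards [eventually_ge_atTop n0] with n hn
      rw [Real.norm_of_nonneg (Nat.cast_nonneg _), Real.norm_of_nonneg (by positivity)]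
      obtain ⟨G, hG, hcard'⟩ := hlow n hn
      rw [hasBU_iff] at hG
      have h1 : G.edgeFinset.card ≤ SimpleGraph.extremalNumber n (BU T R t) := by
        have := SimpleGraph.card_edgeFinset_le_extremalNumber (G := G) (H := BU T R t) hG
        rwa [Fintype.card_fin] at this
      rw [ncard_edgeSet] at hcard'
      have h2 : (G.edgeFinset.card : ℝ) ≤ (SimpleGraph.extremalNumber n (BU T R t) : ℝ) := by
        exact_mod_cast h1
      have h3 := hcard'.trans h2
      calc (n : ℝ) ^ θ = 1 / c * (c * (n : ℝ) ^ θ) := by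
            rw [← mul_assoc, one_div_mul_cancel hc.ne', one_mul]
        _ ≤ _ := mul_le_mul_of_nonneg_left h3 (by positivity)

theorem good_base (s q : ℕ) (hs : 1 ≤ s) (hq : 3 ≤ q) :
    Good (s + 1 + hh s q) (2 * hh s q) := by
  obtain ⟨V, hV, T, R, col, _, hadm, hm, he, hbal, hBU⟩ :=
    Pool.Agent.W376.TE4Tree4.tree4 s q hs (by omega)
  refine ⟨V, hV, T, R, col, hadm, hm, he, hbal, ?_⟩
  intro t ht
  obtain ⟨C, hC⟩ := m_up s q t hs hq ht
  refine ⟨C, fun n G hG => ?_⟩
  rw [one_div_div]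
  exact hC n G (fun h => hG (hBU t (Fin n) G h))

/-- new Turan exponents: 2 - a/(b + j a) with a = g (q+2) - 1, b = 2 (g (q+1) - 1) -/
theorem exponents4 (g q j : ℕ) (hg : 2 ≤ g) (hq : 3 ≤ q) :
    ∃ k : ℕ, ∃ H : SimpleGraph (Fin k), H.Colorable 2 ∧
      (fun n : ℕ => (SimpleGraph.extremalNumber n H : ℝ)) =Θ[atTop]
        (fun n : ℕ => (n : ℝ) ^ (2 - ((g : ℝ) * (q + 2) - 1) /
          (2 * ((g : ℝ) * (q + 1) - 1) + j * ((g : ℝ) * (q + 2) - 1)))) := by
  obtain ⟨s, rfl⟩ : ∃ s, g = s + 1 := ⟨g - 1, by omega⟩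
  have hh1 : s + 1 < hh s q := by
    unfold hh
    have : (s + 1) * 1 ≤ (s + 1) * q := Nat.mul_le_mul_left _ (by omega)
    omega
  have h := theta_of_good (m := s + 1 + hh s q) (e := 2 * hh s q + j * (s + 1 + hh s q))
    (by omega) (by omega)
    (good_iter (by omega) (by omega) (good_base s q (by omega) hq) j)
  have e1 : ((s + 1 + hh s q : ℕ) : ℝ) = ((s + 1 : ℕ) : ℝ) * (q + 2) - 1 := by
    unfold hh; push_cast; ring
  have e2 : ((2 * hh s q + j * (s + 1 + hh s q) : ℕ) : ℝ) =
      2 * (((s + 1 : ℕ) : ℝ) * (q + 1) - 1) + j * (((s + 1 : ℕ) : ℝ) * (q + 2) - 1) := by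
    unfold hh; push_cast; ring
  rw [e1, e2] at h
  exact h

end Pool.Agent.W979.TE5
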